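import Mathlib

namespace Pool.Agent.Results.MP_2b3d15_co.Q1

variable {V : Type*}

/-- The ball of radius `r` around `v`. -/
def ball (G : SimpleGraph V) (v : V) (r : ℕ) : Set V := {u | G.dist u v ≤ r}

/-- The size of the balls is bounded by a linear function of the radius. -/
def LinearGrowth (G : SimpleGraph V) : Prop :=
  ∃ a b : ℕ, ∀ v r, (ball G v r).ncard ≤ a * r + b

def VertexTransitive (G : SimpleGraph V) : Prop := ∀ u v, ∃ f : G ≃g G, f u = v

/-- The Voronoi cell of the site `v` with respect to the set of sites `T`. -/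
def cell (G : SimpleGraph V) (T : Finset V) (v : V) : Set V :=
  {u | ∀ v' ∈ T, G.dist u v ≤ G.dist u v'}

lemma ball_finite (G : SimpleGraph V) (hc : G.Connected) (hl : ∀ v, (G.neighborSet v).Finite)
    (v : V) : ∀ r, (ball G v r).Finite
  | 0 => (Set.finite_singleton v).subset fun u hu =>
      hc.dist_eq_zero_iff.1 (Nat.le_zero.1 hu)
  | r + 1 => by
    refine ((ball_finite G hc hl v r).union
      ((ball_finite G hc hl v r).biUnion fun w _ => hl w)).subset fun u hu => ?_
    obtain ⟨p, hp⟩ := hc.exists_walk_length_eq_dist u v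
    cases p with
    | nil => left; simp [ball]
    | cons h q =>
      right
      refine Set.mem_biUnion (x := _) ?_ h.symm
      have h1 := SimpleGraph.dist_le q
      have h2 : G.dist u v ≤ r + 1 := hu
      rw [SimpleGraph.Walk.length_cons] at hp
      change G.dist _ v ≤ r
      omega

theorem result [Infinite V] (G : SimpleGraph V) (hc : G.Connected)
    (hl : ∀ v, (G.neighborSet v).Finite) (_ht : VertexTransitive G) (hg : ¬ LinearGrowth G)
    (n : ℕ) : ∃ T : Finset V, T.Nonempty ∧ n ≤ {v | v ∈ T ∧ (cell G T v).Infinite}.ncard := by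
  classical
  unfold LinearGrowth at hg
  push Not at hg
  obtain ⟨o, r, hr⟩ := hg (2 * n) n
  have hB := ball_finite G hc hl o r
  have key : ∀ u : V, ∃ T ∈ hB.toFinset.powerset, n < T.card ∧
      ∀ v ∈ T, ∀ v' ∈ T, G.dist u v = G.dist u v' := by
    intro u
    obtain ⟨y, _, hy⟩ := Finset.exists_lt_card_fiber_of_mul_lt_card_of_maps_to
      (s := hB.toFinset) (t := Finset.range (2 * r + 1)) (n := n)
      (f := fun x => G.dist u x + r - G.dist u o)
      (fun x hx => by
        have h1 : G.dist x o ≤ r := hB.mem_toFinset.1 hx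
        have h2 := hc.dist_triangle (u := u) (v := o) (w := x)
        rw [G.dist_comm (u := o)] at h2
        rw [Finset.mem_range]; omega)
      (by rw [Finset.card_range, ← Set.ncard_eq_toFinset_card _ hB]; linarith)
    refine ⟨_, Finset.mem_powerset.2 (Finset.filter_subset _ _), hy, fun v hv v' hv' => ?_⟩
    obtain ⟨h1, h2⟩ := Finset.mem_filter.1 hv
    obtain ⟨h3, h4⟩ := Finset.mem_filter.1 hv'
    have h5 : G.dist v o ≤ r := hB.mem_toFinset.1 h1
    have h6 : G.dist v' o ≤ r := hB.mem_toFinset.1 h3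
    have h7 := hc.dist_triangle (u := u) (v := v) (w := o)
    have h8 := hc.dist_triangle (u := u) (v := v') (w := o)
    omega
  choose f hf using key
  obtain ⟨⟨T, hT⟩, hinf⟩ := Finite.exists_infinite_fiber
    (fun u => (⟨f u, (hf u).1⟩ : hB.toFinset.powerset))
  have hinf' := Set.infinite_coe_iff.1 hinf
  obtain ⟨u0, hu0⟩ := hinf'.nonempty
  have e0 : f u0 = T := by simpa using hu0
  have hn : n < T.card := e0 ▸ (hf u0).2.1
  refine ⟨T, Finset.card_pos.1 (by omega), ?_⟩
  have : {v | v ∈ T ∧ (cell G T v).Infinite} = (T : Set V) := by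
    ext v
    refine ⟨fun h => h.1, fun h => ⟨h, hinf'.mono fun u hu v' hv' => ?_⟩⟩
    have e : f u = T := by simpa using hu
    exact ((hf u).2.2 v (e ▸ h) v' (e ▸ hv')).le
  rw [this, Set.ncard_coe_finset]
  omega

end Pool.Agent.Results.MP_2b3d15_co.Q1
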